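import Mathlib
import Pool.Agent.W2helper88.ClawE

/-!
# (1,1,2,3)-packing colourings of claw-free cubic graphs

Every claw-free cubic graph is (1,1,2,3)-packing colourable.
-/

set_option autoImplicit false
set_option linter.unusedSimpArgs false

namespace Pool.Agent.Results.MP_b5f1b3_co.ClawFreeCubic

open Pool.Agent.W2helper88.CP

/-- `X` is an `s`-packing: any two distinct vertices of `X` are at distance greater than `s`
(vertices in different components are at distance `⊤`). -/
def IsPacking {V : Type} (G : SimpleGraph V) (s : ℕ) (X : Set V) : Prop :=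
  ∀ u ∈ X, ∀ v ∈ X, u ≠ v → (s : ℕ∞) < G.edist u v

/-- For `S = (s 0, …, s (k - 1))`, the graph `G` is `S`-packing colourable: its vertex set is the
disjoint union of the (possibly empty) sets `c ⁻¹' {i}`, where `c ⁻¹' {i}` is an `s i`-packing. -/
def PackingColourable {V : Type} (G : SimpleGraph V) {k : ℕ} (s : Fin k → ℕ) : Prop :=
  ∃ c : V → Fin k, ∀ i, IsPacking G (s i) (c ⁻¹' {i})

theorem walk_cases {V : Type} {G : SimpleGraph V} {u v : V} (huv : u ≠ v) {s : ℕ}
    (h : ¬ (s : ℕ∞) < G.edist u v) : ∃ w : G.Walk u v, 1 ≤ w.length ∧ w.length ≤ s := by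
  rw [not_lt] at h
  have hne : G.edist u v ≠ ⊤ := fun h' => by
    rw [h', top_le_iff] at h
    exact absurd h (ENat.natCast_ne_top s)
  obtain ⟨w, hw⟩ := (SimpleGraph.reachable_of_edist_ne_top hne).exists_walk_length_eq_edist
  refine ⟨w, ?_, ?_⟩
  · rcases Nat.eq_zero_or_pos w.length with h0 | h0
    · exact absurd (SimpleGraph.Walk.eq_of_length_eq_zero h0) huv
    · exact h0
  · rw [← hw] at h
    exact_mod_cast h

/-- **Every claw-free cubic graph is (1,1,2,3)-packing colourable.** Let `G` be a finite simple
graph in which every vertex has exactly three neighbours and which has no induced subgraph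
isomorphic to `K_{1,3}`. Then the vertex set of `G` can be partitioned into two 1-packings
(independent sets), a 2-packing and a 3-packing. -/
theorem result {V : Type} [Finite V] (G : SimpleGraph V)
    (hcubic : ∀ v, (G.neighborSet v).ncard = 3)
    (hclaw : IsEmpty (completeBipartiteGraph (Fin 1) (Fin 3) ↪g G)) :
    PackingColourable G ![1, 1, 2, 3] := by
  classical
  have := Fintype.ofFinite V
  have hc : Cub G := by
    intro x
    obtain ⟨a, b, c, h1, h2, h3, h4⟩ := Set.ncard_eq_three.1 (hcubic x)
    refine ⟨a, b, c, h1, h2, h3, fun w => ?_⟩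
    have h5 : w ∈ G.neighborSet x ↔ w ∈ ({a, b, c} : Set V) := by rw [h4]
    rw [SimpleGraph.mem_neighborSet] at h5
    rw [h5]
    simp
  have hcf : CF G := by
    intro v a b c ha hb hcc hab hac hbc
    by_contra hcon
    push Not at hcon
    obtain ⟨n1, n2, n3⟩ := hcon
    have n1' : ¬ G.Adj b a := fun h => n1 h.symm
    have n2' : ¬ G.Adj c a := fun h => n2 h.symm
    have n3' : ¬ G.Adj c b := fun h => n3 h.symm
    let g : Fin 1 ⊕ Fin 3 → V := Sum.elim (fun _ => v) ![a, b, c]
    have hinj : Function.Injective g := by
      have hva := ha.ne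
      have hvb := hb.ne
      have hvc := hcc.ne
      rintro (i | i) (j | j) h
      · rw [Subsingleton.elim i j]
      · fin_cases j <;> simp_all [g]
      · fin_cases i <;> simp_all [g]
      · fin_cases i <;> fin_cases j <;> simp_all [g]
    have hadj : ∀ i j, G.Adj (g i) (g j) ↔ (completeBipartiteGraph (Fin 1) (Fin 3)).Adj i j := by
      rintro (i | i) (j | j)
      · simp [g]
      · fin_cases j <;> simp [g, ha, hb, hcc]
      · fin_cases i <;> simp [g, ha.symm, hb.symm, hcc.symm]
      · fin_cases i <;> fin_cases j <;> simp [g, n1, n2, n3, n1', n2', n3']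
    exact hclaw.false ⟨⟨g, hinj⟩, fun {i j} => hadj i j⟩
  obtain ⟨f, h0, h1, h2, h3⟩ := exists_colouring hc hcf
  refine ⟨f, fun i => ?_⟩
  have one : ∀ j : Fin 4, (∀ u v, f u = j → f v = j → ¬ G.Adj u v) →
      IsPacking G 1 (f ⁻¹' {j}) := by
    intro j hj u hu v hv huv
    by_contra hcon
    obtain ⟨w, hw1, hw2⟩ := walk_cases huv hcon
    have h4 : w.length = 1 := by omega
    exact hj u v hu hv (SimpleGraph.Walk.adj_of_length_eq_one h4)
  fin_cases i
  · exact one 0 h0
  · exact one 1 h1
  · show IsPacking G 2 (f ⁻¹' {2})
    intro u hu v hv huv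
    by_contra hcon
    obtain ⟨w, hw1, hw2⟩ := walk_cases huv hcon
    apply huv
    apply h2 u v hu hv
    cases w with
    | nil => simp at hw1
    | cons a p =>
      cases p with
      | nil => exact Or.inl a
      | cons b q =>
        cases q with
        | nil => exact Or.inr ⟨_, a, b⟩
        | cons d r =>
          simp only [SimpleGraph.Walk.length_cons] at hw2
          omega
  · show IsPacking G 3 (f ⁻¹' {3})
    intro u hu v hv huv
    by_contra hcon
    obtain ⟨w, hw1, hw2⟩ := walk_cases huv hcon
    apply huv
    apply h3 u v hu hv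
    cases w with
    | nil => simp at hw1
    | cons a p =>
      cases p with
      | nil => exact Or.inl a
      | cons b q =>
        cases q with
        | nil => exact Or.inr (Or.inl ⟨_, a, b⟩)
        | cons d r =>
          cases r with
          | nil => exact Or.inr (Or.inr ⟨_, _, a, b, d⟩)
          | cons e s =>
            simp only [SimpleGraph.Walk.length_cons] at hw2
            omega

end Pool.Agent.Results.MP_b5f1b3_co.ClawFreeCubic
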